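import Mathlib

/-!
Packet U3 of MP_6b0aee_an: Chebyshev's inequality for independent uniformly distributed phases.
-/

open Set Filter Topology MeasureTheory

namespace Pool.Agent.Helper91.Weiss

theorem sum_sq_le (L : ℕ) (K : ℝ) : ∀ (q : ℕ) (g : Fin q → Fin L → ℝ),
    (∀ l, ∑ s, g l s = 0) → (∀ l s, |g l s| ≤ K) →
    ∑ r : Fin q → Fin L, (∑ l, g l (r l)) ^ 2 ≤ (L : ℝ) ^ q * q * K ^ 2 := by
  intro q
  induction q with
  | zero => intro g _ _; simp
  | succ q ih =>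
    intro g h0 hK
    have e1 : ∑ r : Fin (q + 1) → Fin L, (∑ l, g l (r l)) ^ 2 =
        ∑ s : Fin L, ∑ r : Fin q → Fin L, (g 0 s + ∑ l : Fin q, g l.succ (r l)) ^ 2 := by
      rw [← (Fin.consEquiv (fun _ : Fin (q + 1) => Fin L)).sum_comp, Fintype.sum_prod_type]
      refine Finset.sum_congr rfl (fun s _ => Finset.sum_congr rfl (fun r _ => ?_))
      rw [Fin.sum_univ_succ]
      simp [Fin.consEquiv]
    have e2 : ∀ s : Fin L, ∑ r : Fin q → Fin L, (g 0 s + ∑ l : Fin q, g l.succ (r l)) ^ 2 =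
        (L : ℝ) ^ q * (g 0 s) ^ 2 + 2 * g 0 s * (∑ r : Fin q → Fin L, ∑ l : Fin q, g l.succ (r l)) +
        ∑ r : Fin q → Fin L, (∑ l : Fin q, g l.succ (r l)) ^ 2 := by
      intro s
      rw [Finset.mul_sum]
      have : (L : ℝ) ^ q * (g 0 s) ^ 2 = ∑ _r : Fin q → Fin L, (g 0 s) ^ 2 := by
        simp
      rw [this, ← Finset.sum_add_distrib, ← Finset.sum_add_distrib]
      exact Finset.sum_congr rfl (fun r _ => by ring)
    rw [e1, Finset.sum_congr rfl (fun s _ => e2 s), Finset.sum_add_distrib,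
      Finset.sum_add_distrib, ← Finset.sum_mul, ← Finset.mul_sum, ← Finset.mul_sum, h0 0,
      mul_zero, zero_mul, add_zero, Finset.sum_const, Finset.card_univ, Fintype.card_fin,
      nsmul_eq_mul]
    have h1 : ∑ s, (g 0 s) ^ 2 ≤ (L : ℝ) * K ^ 2 := by
      have : ∑ s, (g 0 s) ^ 2 ≤ ∑ _s : Fin L, K ^ 2 := by
        refine Finset.sum_le_sum (fun s _ => ?_)
        rw [← sq_abs]
        exact pow_le_pow_left₀ (abs_nonneg _) (hK 0 s) 2
      simpa using this
    have h2 := ih (fun l => g l.succ) (fun l => h0 l.succ) (fun l s => hK l.succ s)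
    have hL : (0 : ℝ) ≤ (L : ℝ) ^ q := by positivity
    have h3 : (L : ℝ) ^ q * ∑ s, (g 0 s) ^ 2 ≤ (L : ℝ) ^ q * ((L : ℝ) * K ^ 2) :=
      mul_le_mul_of_nonneg_left h1 hL
    have h4 : (L : ℝ) * ∑ r : Fin q → Fin L, (∑ l : Fin q, g l.succ (r l)) ^ 2 ≤
        L * ((L : ℝ) ^ q * q * K ^ 2) := mul_le_mul_of_nonneg_left h2 (Nat.cast_nonneg L)
    calc _ ≤ (L : ℝ) ^ q * ((L : ℝ) * K ^ 2) + L * ((L : ℝ) ^ q * q * K ^ 2) := add_le_add h3 h4
      _ = (L : ℝ) ^ (q + 1) * ((q + 1 : ℕ) : ℝ) * K ^ 2 := by push_cast; ring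

theorem chebyshev_phases (q L : ℕ) (hL : 0 < L) (f : Fin q → Fin L → ℝ) (K δ : ℝ) (hK : 0 ≤ K)
    (hf : ∀ l r, 0 ≤ f l r ∧ f l r ≤ K) (hδ : 0 < δ) :
    (Nat.card {r : Fin q → Fin L //
      δ * q * K < |∑ l, f l (r l) - ∑ l, (∑ s, f l s) / L|} : ℝ) * (δ ^ 2 * q) ≤ (L : ℝ) ^ q := by
  classical
  have hL' : (0 : ℝ) < L := by exact_mod_cast hL
  rcases Nat.eq_zero_or_pos q with hq | hq
  · subst hq
    simp
  have hq' : (0 : ℝ) < q := by exact_mod_cast hq
  set g : Fin q → Fin L → ℝ := fun l s => f l s - (∑ s, f l s) / L with hg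
  have hg0 : ∀ l, ∑ s, g l s = 0 := by
    intro l
    simp only [hg, Finset.sum_sub_distrib, Finset.sum_const, Finset.card_univ, Fintype.card_fin,
      nsmul_eq_mul]
    field_simp
    ring
  have hgK : ∀ l s, |g l s| ≤ K := by
    intro l s
    have h1 := hf l s
    have h2 : 0 ≤ (∑ s, f l s) / L :=
      div_nonneg (Finset.sum_nonneg (fun s _ => (hf l s).1)) hL'.le
    have h3 : (∑ s, f l s) / L ≤ K := by
      rw [div_le_iff₀ hL']
      have : ∑ s, f l s ≤ ∑ _s : Fin L, K := Finset.sum_le_sum (fun s _ => (hf l s).2)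
      simpa [mul_comm] using this
    rw [abs_le]
    constructor <;> simp only [hg] <;> linarith
  have hV := sum_sq_le L K q g hg0 hgK
  have hS : ∀ r : Fin q → Fin L, ∑ l, f l (r l) - ∑ l, (∑ s, f l s) / L = ∑ l, g l (r l) := by
    intro r
    rw [← Finset.sum_sub_distrib]
  rw [Nat.card_eq_fintype_card, Fintype.card_subtype]
  set bad : Finset (Fin q → Fin L) := Finset.univ.filter
    (fun r => δ * q * K < |∑ l, f l (r l) - ∑ l, (∑ s, f l s) / L|) with hbad
  rcases hK.eq_or_lt with hK0 | hK0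
  · have : bad = ∅ := by
      rw [hbad, Finset.filter_eq_empty_iff]
      intro r _ h
      rw [hS] at h
      have h1 : ∑ l, g l (r l) = 0 := by
        refine Finset.sum_eq_zero (fun l _ => ?_)
        have := hgK l (r l)
        rw [← hK0] at this
        exact abs_nonpos_iff.1 this
      rw [h1, ← hK0] at h
      simp at h
    rw [this]
    simp
  have h1 : (bad.card : ℝ) * (δ * q * K) ^ 2 ≤ ∑ r : Fin q → Fin L, (∑ l, g l (r l)) ^ 2 := by
    calc (bad.card : ℝ) * (δ * q * K) ^ 2 = ∑ _r ∈ bad, (δ * q * K) ^ 2 := by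
          rw [Finset.sum_const, nsmul_eq_mul]
      _ ≤ ∑ r ∈ bad, (∑ l, g l (r l)) ^ 2 := by
          refine Finset.sum_le_sum (fun r hr => ?_)
          have h := (Finset.mem_filter.1 hr).2
          rw [hS] at h
          rw [← sq_abs (∑ l, g l (r l))]
          exact pow_le_pow_left₀ (by positivity) h.le 2
      _ ≤ ∑ r : Fin q → Fin L, (∑ l, g l (r l)) ^ 2 :=
          Finset.sum_le_sum_of_subset_of_nonneg (Finset.subset_univ _)
            (fun r _ _ => sq_nonneg _)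
  have h2 : (bad.card : ℝ) * (δ ^ 2 * q) * (q * K ^ 2) ≤ (L : ℝ) ^ q * (q * K ^ 2) := by
    calc (bad.card : ℝ) * (δ ^ 2 * q) * (q * K ^ 2) = (bad.card : ℝ) * (δ * q * K) ^ 2 := by ring
      _ ≤ (L : ℝ) ^ q * q * K ^ 2 := h1.trans hV
      _ = _ := by ring
  exact le_of_mul_le_mul_right h2 (by positivity)

end Pool.Agent.Helper91.Weiss
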