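import Mathlib

/-!
Packet U5 of MP_6b0aee_an: adjusting a word to a given type.
-/

open Set Filter Topology MeasureTheory

namespace Pool.Agent.Helper91.Weiss

/-- number of occurrences -/
theorem card_update {ι W : Type*} [Fintype ι] [DecidableEq ι] [DecidableEq W]
    (v : ι → W) (i : ι) (c : W) (hic : v i ≠ c) (b : W) :
    (((Finset.univ.filter (fun j => Function.update v i c j = b)).card : ℕ) : ℤ) =
      (Finset.univ.filter (fun j => v j = b)).card - (if v i = b then 1 else 0) +
        (if c = b then 1 else 0) := by
  have h1 : ∀ f : ι → W, (((Finset.univ.filter (fun j => f j = b)).card : ℕ) : ℤ) =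
      ∑ j, if f j = b then (1 : ℤ) else 0 := by
    intro f
    rw [Finset.card_filter]
    push_cast
    rfl
  rw [h1, h1, ← Finset.add_sum_erase _ _ (Finset.mem_univ i),
    ← Finset.add_sum_erase (Finset.univ) (fun j => if v j = b then (1 : ℤ) else 0)
      (Finset.mem_univ i)]
  have h2 : ∑ j ∈ Finset.univ.erase i, (if Function.update v i c j = b then (1 : ℤ) else 0) =
      ∑ j ∈ Finset.univ.erase i, (if v j = b then (1 : ℤ) else 0) := by
    refine Finset.sum_congr rfl (fun j hj => ?_)
    rw [Function.update_of_ne (Finset.ne_of_mem_erase hj)]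
  rw [h2, Function.update_self]
  ring

theorem adjust_type {ι W : Type*} [Fintype ι] [DecidableEq ι] [Fintype W] [DecidableEq W]
    (v : ι → W) (τ : W → ℕ) (hτ : ∑ b, τ b = Fintype.card ι) :
    ∃ v' : ι → W, (∀ b, (Finset.univ.filter (fun i => v' i = b)).card = τ b) ∧
      (Finset.univ.filter (fun i => v i ≠ v' i)).card ≤
        ∑ b, ((τ b : ℤ) - (Finset.univ.filter (fun i => v i = b)).card).natAbs := by
  induction hn : ∑ b, ((τ b : ℤ) - (Finset.univ.filter (fun i => v i = b)).card).natAbs
    using Nat.strong_induction_on generalizing v with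
  | _ n ih =>
    have hsum : ∑ b, (Finset.univ.filter (fun i => v i = b)).card = Fintype.card ι := by
      rw [← Finset.card_univ]
      exact (Finset.card_eq_sum_card_fiberwise (fun _ _ => Finset.mem_univ _)).symm
    by_cases hall : ∀ b, (Finset.univ.filter (fun i => v i = b)).card = τ b
    · exact ⟨v, hall, by simp⟩
    push Not at hall
    obtain ⟨b₀, hb₀⟩ := hall
    -- an overfull letter and an underfull one
    have hover : ∃ b, τ b < (Finset.univ.filter (fun i => v i = b)).card := by
      by_contra hno
      push Not at hno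
      have hlt : ∑ b, (Finset.univ.filter (fun i => v i = b)).card < ∑ b, τ b :=
        Finset.sum_lt_sum (fun b _ => hno b)
          ⟨b₀, Finset.mem_univ _, lt_of_le_of_ne (hno b₀) hb₀⟩
      omega
    have hunder : ∃ c, (Finset.univ.filter (fun i => v i = c)).card < τ c := by
      by_contra hno
      push Not at hno
      have hlt : ∑ b, τ b < ∑ b, (Finset.univ.filter (fun i => v i = b)).card :=
        Finset.sum_lt_sum (fun b _ => hno b)
          ⟨b₀, Finset.mem_univ _, lt_of_le_of_ne (hno b₀) (Ne.symm hb₀)⟩
      omega
    obtain ⟨b, hb⟩ := hover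
    obtain ⟨c, hc⟩ := hunder
    have hbc : b ≠ c := by rintro rfl; omega
    obtain ⟨i, hi⟩ := Finset.card_pos.1 (lt_of_le_of_lt (Nat.zero_le _) hb)
    have hi' : v i = b := (Finset.mem_filter.1 hi).2
    have hic : v i ≠ c := by rw [hi']; exact hbc
    set v₁ := Function.update v i c with hv₁
    have hcard := card_update v i c hic
    have hlt : ∑ b', ((τ b' : ℤ) - (Finset.univ.filter (fun j => v₁ j = b')).card).natAbs < n := by
      rw [← hn]
      refine Finset.sum_lt_sum (fun b' _ => ?_) ⟨b, Finset.mem_univ _, ?_⟩
      · rw [hcard b', hi']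
        by_cases h1 : b = b'
        · subst h1
          rw [if_pos rfl, if_neg (Ne.symm hbc)]
          omega
        · by_cases h2 : c = b'
          · subst h2
            rw [if_neg h1, if_pos rfl]
            omega
          · rw [if_neg h1, if_neg h2]
            omega
      · rw [hcard b, hi', if_pos rfl, if_neg (Ne.symm hbc)]
        omega
    obtain ⟨v', hv', hle⟩ := ih _ hlt v₁ rfl
    refine ⟨v', hv', ?_⟩
    have hsub : (Finset.univ.filter (fun j => v j ≠ v' j)) ⊆
        insert i (Finset.univ.filter (fun j => v₁ j ≠ v' j)) := by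
      intro j hj
      rw [Finset.mem_insert]
      by_cases hji : j = i
      · left; exact hji
      · right
        rw [Finset.mem_filter] at hj ⊢
        refine ⟨Finset.mem_univ _, ?_⟩
        rw [hv₁, Function.update_of_ne hji]
        exact hj.2
    have h1 := Finset.card_le_card hsub
    have h2 := Finset.card_insert_le i (Finset.univ.filter (fun j => v₁ j ≠ v' j))
    omega

end Pool.Agent.Helper91.Weiss
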